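import Pool.Agent.T9h94.CZ.Spec2

/-!
# (K3) Free groups of finite rank are linear

The ping-pong for rank two is the one of the starting file `Pool/Agent/S02332.lean`.
-/

set_option autoImplicit false

namespace Pool.Agent.T9h70.CZ

open Pool.Agent.T9h94.CZ Matrix

def gA : GL (Fin 2) ℚ :=
  ⟨!![1, 2; 0, 1], !![1, -2; 0, 1],
    by ext i j; fin_cases i <;> fin_cases j <;> norm_num [Matrix.mul_apply, Fin.sum_univ_two],
    by ext i j; fin_cases i <;> fin_cases j <;> norm_num [Matrix.mul_apply, Fin.sum_univ_two]⟩

def gB : GL (Fin 2) ℚ :=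
  ⟨!![1, 0; 2, 1], !![1, 0; -2, 1],
    by ext i j; fin_cases i <;> fin_cases j <;> norm_num [Matrix.mul_apply, Fin.sum_univ_two],
    by ext i j; fin_cases i <;> fin_cases j <;> norm_num [Matrix.mul_apply, Fin.sum_univ_two]⟩

def XX : Fin 2 → Set (OnePoint ℚ) :=
  ![{z | z.elim True (fun t => 1 < t)}, {z | z.elim False (fun t => 0 ≤ t ∧ t ≤ 1)}]

def YY : Fin 2 → Set (OnePoint ℚ) :=
  ![{z | z.elim False (fun t => t ≤ -1)}, {z | z.elim False (fun t => -1 < t ∧ t < 0)}]

open scoped Function Pointwise in
theorem rho_injective : Function.Injective (FreeGroup.lift ![gA, gB]) := by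
  apply FreeGroup.injective_lift_of_ping_pong ![gA, gB] XX YY
  · intro i
    fin_cases i
    · exact ⟨OnePoint.infty, by simp [XX]⟩
    · exact ⟨((0 : ℚ) : OnePoint ℚ), by simp [XX]⟩
  · intro i j hij
    rw [Function.onFun, Set.disjoint_left]
    intro z h1 h2
    induction z using OnePoint.rec <;> fin_cases i <;> fin_cases j <;> simp_all [XX] <;> linarith
  · intro i j hij
    rw [Function.onFun, Set.disjoint_left]
    intro z h1 h2
    induction z using OnePoint.rec <;> fin_cases i <;> fin_cases j <;> simp_all [YY] <;> linarith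
  · intro i j
    rw [Set.disjoint_left]
    intro z h1 h2
    induction z using OnePoint.rec <;> fin_cases i <;> fin_cases j <;> simp_all [XX, YY] <;> linarith
  · intro i
    rw [Set.smul_set_subset_iff]
    intro z hz
    induction z using OnePoint.rec with
    | infty =>
      rw [OnePoint.smul_infty_eq_ite]
      fin_cases i <;> simp_all [XX, YY, gA, gB]
      norm_num
    | coe t =>
      rw [OnePoint.smul_some_eq_ite]
      fin_cases i <;> simp_all [XX, YY, gA, gB]
      · linarith
      · rcases le_or_gt t (-1) with h | h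
        · have h1 : 2 * t + 1 < 0 := by linarith
          rw [if_neg h1.ne]
          simp only [OnePoint.elim_some]
          exact ⟨div_nonneg_of_nonpos (by linarith) h1.le, by rw [div_le_one_of_neg h1]; linarith⟩
        · have h0 := hz h
          have h1 : 0 < 2 * t + 1 := by linarith
          rw [if_neg h1.ne']
          simp only [OnePoint.elim_some]
          exact ⟨div_nonneg h0 h1.le, by rw [div_le_one h1]; linarith⟩
  · intro i
    rw [Set.smul_set_subset_iff]
    intro z hz
    induction z using OnePoint.rec with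
    | infty =>
      rw [OnePoint.smul_infty_eq_ite]
      fin_cases i <;> simp_all [XX, YY, gA, gB]
      norm_num
    | coe t =>
      rw [OnePoint.smul_some_eq_ite]
      fin_cases i <;> simp_all [XX, YY, gA, gB]
      · linarith
      · rcases lt_or_ge t 0 with h | h
        · have h1 : 0 < -(2 * t) + 1 := by linarith
          rw [if_neg h1.ne']
          simp only [OnePoint.elim_some]
          exact ⟨by rw [lt_div_iff₀ h1]; linarith, div_neg_of_neg_of_pos h h1⟩
        · have h0 := hz h
          have h1 : -(2 * t) + 1 < 0 := by linarith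
          rw [if_neg h1.ne]
          simp only [OnePoint.elim_some]
          exact ⟨by rw [lt_div_iff_of_neg h1]; linarith, div_neg_of_pos_of_neg (by linarith) h1⟩

/-! ### The free group of countable rank in the free group of rank two -/

/-- the shift automorphisms -/
def shift : Multiplicative ℤ →* MulAut (FreeGroup ℤ) where
  toFun k := FreeGroup.freeGroupCongr (Equiv.addRight (Multiplicative.toAdd k))
  map_one' := by
    refine MulEquiv.toMonoidHom_injective (FreeGroup.ext_hom _ _ fun n => ?_)
    simp
  map_mul' k l := by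
    refine MulEquiv.toMonoidHom_injective (FreeGroup.ext_hom _ _ fun n => ?_)
    simp [MulAut.mul_apply, add_comm, add_left_comm]

/-- `n ↦ x ^ n * y * x ^ (-n)` -/
def emb : FreeGroup ℤ →* FreeGroup (Fin 2) :=
  FreeGroup.lift fun n : ℤ => FreeGroup.of 0 ^ n * FreeGroup.of 1 * (FreeGroup.of 0 ^ n)⁻¹

theorem emb_injective : Function.Injective emb := by
  let Θ : FreeGroup (Fin 2) →* FreeGroup ℤ ⋊[shift] Multiplicative ℤ :=
    FreeGroup.lift ![SemidirectProduct.inr (Multiplicative.ofAdd 1),
      SemidirectProduct.inl (FreeGroup.of 0)]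
  have h0 : Θ (FreeGroup.of 0) = SemidirectProduct.inr (Multiplicative.ofAdd 1) := by
    simp [Θ]
  have h1 : Θ (FreeGroup.of 1) = SemidirectProduct.inl (FreeGroup.of 0) := by
    simp [Θ]
  have h : Θ.comp emb = SemidirectProduct.inl := by
    refine FreeGroup.ext_hom _ _ fun n => ?_
    have e1 : (Multiplicative.ofAdd (1 : ℤ)) ^ n = Multiplicative.ofAdd n := by
      rw [← ofAdd_zsmul]
      simp
    rw [MonoidHom.comp_apply, emb, FreeGroup.lift_apply_of, map_mul, map_mul, map_inv, map_zpow,
      h0, h1, ← map_zpow, ← map_inv, ← SemidirectProduct.inl_aut, e1]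
    congr 1
    simp [shift]
  have h2 : Function.Injective (Θ.comp emb) := by
    rw [h]
    exact SemidirectProduct.inl_injective
  rw [MonoidHom.coe_comp] at h2
  exact Function.Injective.of_comp h2

theorem sFreeLinear : SFreeLinear := by
  intro m
  refine ⟨(FreeGroup.lift ![gA, gB]).comp (emb.comp (FreeGroup.map fun i : Fin m => ((i : ℕ) : ℤ))),
    ?_⟩
  rw [MonoidHom.coe_comp, MonoidHom.coe_comp]
  refine rho_injective.comp (emb_injective.comp (FreeGroup.map_injective fun i j h => ?_))
  have h' : ((i : ℕ) : ℤ) = ((j : ℕ) : ℤ) := h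
  exact Fin.ext (by exact_mod_cast h')

end Pool.Agent.T9h70.CZ
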