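import Pool.Agent.T9h94.CZ.Spec2

/-!
# (K1) Free groups are not products of nontrivial commuting subgroups
-/

set_option autoImplicit false

namespace Pool.Agent.T9h70.CZ

open Pool.Agent.T9h94.CZ

/-- in a commutative free group there is at most one generator -/
theorem subsingleton_of_comm {X : Type} (h : ∀ a b : FreeGroup X, a * b = b * a) :
    Subsingleton X := by
  classical
  refine ⟨fun x y => ?_⟩
  by_contra hxy
  have h1 := h (FreeGroup.of x) (FreeGroup.of y)
  -- map to the permutations of three points
  let f : X → Equiv.Perm (Fin 3) := fun z =>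
    if z = x then Equiv.swap 0 1 else Equiv.swap 1 2
  have h2 := congrArg (FreeGroup.lift f) h1
  rw [map_mul, map_mul, FreeGroup.lift_apply_of, FreeGroup.lift_apply_of] at h2
  have e1 : f x = Equiv.swap 0 1 := if_pos rfl
  have e2 : f y = Equiv.swap 1 2 := if_neg fun h => hxy h.symm
  rw [e1, e2] at h2
  exact absurd h2 (by decide)

/-- two commuting elements of a free group are powers of one element -/
theorem common_root {X : Type} {a b : FreeGroup X} (hab : a * b = b * a) :
    ∃ (c : FreeGroup X) (i j : ℤ), a = c ^ i ∧ b = c ^ j := by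
  classical
  let H : Subgroup (FreeGroup X) := Subgroup.closure {a, b}
  have ha : a ∈ H := Subgroup.subset_closure (by simp)
  have hb : b ∈ H := Subgroup.subset_closure (by simp)
  have hcomm : ∀ x y : H, x * y = y * x := by
    have hc : IsMulCommutative H := by
      refine Subgroup.isMulCommutative_closure ?_
      rintro x hx y hy
      simp only [Set.mem_insert_iff, Set.mem_singleton_iff] at hx hy
      rcases hx with rfl | rfl <;> rcases hy with rfl | rfl
      · rfl
      · exact hab
      · exact hab.symm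
      · rfl
    exact fun x y => hc.is_comm.comm x y
  let φ : H ≃* FreeGroup (IsFreeGroup.Generators H) := IsFreeGroup.toFreeGroup H
  have hsub : Subsingleton (IsFreeGroup.Generators H) := by
    refine subsingleton_of_comm fun u v => ?_
    have := congrArg φ (hcomm (φ.symm u) (φ.symm v))
    simpa using this
  have hpow : ∃ g : H, ∀ x : H, ∃ i : ℤ, x = g ^ i := by
    rcases isEmpty_or_nonempty (IsFreeGroup.Generators H) with he | ⟨⟨s⟩⟩
    · refine ⟨1, fun x => ⟨0, ?_⟩⟩
      have : φ x = φ (1 ^ (0 : ℤ)) := Subsingleton.elim _ _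
      exact φ.injective this
    · refine ⟨φ.symm (FreeGroup.of s), fun x => ?_⟩
      have h1 : φ x ∈ Subgroup.closure (Set.range
          (FreeGroup.of : IsFreeGroup.Generators H → FreeGroup (IsFreeGroup.Generators H))) := by
        rw [FreeGroup.closure_range_of]
        trivial
      have h2 : Set.range
          (FreeGroup.of : IsFreeGroup.Generators H → FreeGroup (IsFreeGroup.Generators H)) =
          {FreeGroup.of s} := by
        ext z
        constructor
        · rintro ⟨t, rfl⟩
          rw [Subsingleton.elim t s]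
          rfl
        · rintro rfl
          exact ⟨s, rfl⟩
      rw [h2, ← Subgroup.zpowers_eq_closure, Subgroup.mem_zpowers_iff] at h1
      obtain ⟨i, hi⟩ := h1
      refine ⟨i, ?_⟩
      rw [← map_zpow, hi, MulEquiv.symm_apply_apply]
  obtain ⟨g, hg⟩ := hpow
  obtain ⟨i, hi⟩ := hg ⟨a, ha⟩
  obtain ⟨j, hj⟩ := hg ⟨b, hb⟩
  exact ⟨g, i, j, by simpa using congrArg Subtype.val hi, by simpa using congrArg Subtype.val hj⟩

/-- an element commuting with a generator is a power of it -/
theorem power_of_gen {X : Type} {z : FreeGroup X} {s : X}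
    (h : z * FreeGroup.of s = FreeGroup.of s * z) : ∃ i : ℤ, z = FreeGroup.of s ^ i := by
  obtain ⟨c, i, j, h1, h2⟩ := common_root h
  let ε : FreeGroup X →* Multiplicative ℤ := FreeGroup.lift fun _ => Multiplicative.ofAdd 1
  have h3 : Multiplicative.ofAdd (1 : ℤ) = ε c ^ j := by
    rw [← map_zpow, ← h2]
    simp [ε]
  have h4 : (1 : ℤ) = j * Multiplicative.toAdd (ε c) := by
    have := congrArg Multiplicative.toAdd h3
    simpa using this
  have h5 : j = 1 ∨ j = -1 := Int.isUnit_iff.1 (IsUnit.of_mul_eq_one _ h4.symm)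
  rcases h5 with rfl | rfl
  · refine ⟨i, ?_⟩
    rw [h1, h2, zpow_one]
  · refine ⟨-i, ?_⟩
    rw [h2, h1, zpow_neg, zpow_neg, zpow_one, inv_zpow, inv_inv]

theorem sFreePrim : SFreePrim := by
  intro m hm A B hAB hsup
  by_contra hcon
  push Not at hcon
  obtain ⟨hA, hB⟩ := hcon
  have hm2 : 2 ≤ m := by
    by_contra hlt
    have h0 : m = 0 := by omega
    subst h0
    exact hA (Subsingleton.elim _ _)
  obtain ⟨⟨a, haA⟩, ha⟩ := Subgroup.ne_bot_iff_exists_ne_one.1 hA
  obtain ⟨⟨b, hbB⟩, hb⟩ := Subgroup.ne_bot_iff_exists_ne_one.1 hB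
  have ha1 : a ≠ 1 := fun h => ha (Subtype.ext h)
  have hb1 : b ≠ 1 := fun h => hb (Subtype.ext h)
  -- elements of the intersection are central
  have hcen : ∀ z, z ∈ A → z ∈ B → z = 1 := by
    intro z hzA hzB
    have hall : ∀ g : FreeGroup (Fin m), z * g = g * z := by
      intro g
      have hg : g ∈ A ⊔ B := by rw [hsup]; trivial
      have h1 : A ⊔ B ≤ Subgroup.centralizer {z} := by
        refine sup_le (fun x hx => ?_) (fun x hx => ?_)
        · rw [Subgroup.mem_centralizer_singleton_iff]
          exact hAB x hx z hzB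
        · rw [Subgroup.mem_centralizer_singleton_iff]
          exact (hAB z hzA x hx).symm
      have h2 := h1 hg
      rw [Subgroup.mem_centralizer_singleton_iff] at h2
      exact h2.symm
    obtain ⟨i, hi⟩ := power_of_gen (hall (FreeGroup.of ⟨0, by omega⟩))
    obtain ⟨j, hj⟩ := power_of_gen (hall (FreeGroup.of ⟨1, by omega⟩))
    let η : FreeGroup (Fin m) →* Multiplicative ℤ :=
      FreeGroup.lift fun s => if (s : ℕ) = 0 then Multiplicative.ofAdd 1 else 1
    have h1 : η z = Multiplicative.ofAdd i := by
      rw [hi, map_zpow]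
      simp [η, ← ofAdd_zsmul]
    have h2 : η z = 1 := by
      rw [hj, map_zpow]
      simp [η]
    rw [h2] at h1
    have h3 : i = 0 := by
      have := congrArg Multiplicative.toAdd h1
      simpa using this.symm
    rw [hi, h3, zpow_zero]
  obtain ⟨c, i, j, h1, h2⟩ := common_root (hAB a haA b hbB)
  have h3 : a ^ j = b ^ i := by
    rw [h1, h2, ← zpow_mul, ← zpow_mul, mul_comm]
  have h4 : a ^ j = 1 := hcen _ (A.zpow_mem haA j) (h3 ▸ B.zpow_mem hbB i)
  have h5 : b ^ i = 1 := h3 ▸ h4
  have hj : j = 0 := by
    by_contra hj0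
    exact ha1 (zpow_left_injective hj0 (by
      show a ^ j = 1 ^ j
      rw [h4, one_zpow]))
  rw [hj, zpow_zero] at h2
  exact hb1 h2

end Pool.Agent.T9h70.CZ
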