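import Pool.Agent.T9h94.CZ.Spec2

/-!
# (K2) Linear groups are equationally Noetherian
-/

set_option autoImplicit false

namespace Pool.Agent.T9h70.CZ

open Pool.Agent.T9h94.CZ Matrix

section
variable {α P K : Type} [Group P] [Field K] {d : ℕ}

/-- the generic matrix of a letter -/
noncomputable def genM (K : Type) [Field K] (d : ℕ) (p : α × Bool) :
    Matrix (Fin d) (Fin d) (MvPolynomial (α × Bool × Fin d × Fin d) K) :=
  Matrix.of fun i j => MvPolynomial.X (p.1, p.2, i, j)

open Classical in
/-- the generic matrix of a word -/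
noncomputable def wM (K : Type) [Field K] (d : ℕ) (w : FreeGroup α) :
    Matrix (Fin d) (Fin d) (MvPolynomial (α × Bool × Fin d × Fin d) K) :=
  (w.toWord.map (genM K d)).prod

/-- the point given by a tuple -/
noncomputable def pt (φ : P →* Matrix.GeneralLinearGroup (Fin d) K) (x : α → P)
    (q : α × Bool × Fin d × Fin d) : K :=
  ((cond q.2.1 (φ (x q.1)) (φ (x q.1))⁻¹ : Matrix.GeneralLinearGroup (Fin d) K) :
    Matrix (Fin d) (Fin d) K) q.2.2.1 q.2.2.2

open Classical in
theorem wM_eval (φ : P →* Matrix.GeneralLinearGroup (Fin d) K) (x : α → P) (w : FreeGroup α) :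
    ((φ (FreeGroup.lift x w) : Matrix.GeneralLinearGroup (Fin d) K) :
      Matrix (Fin d) (Fin d) K) = (MvPolynomial.eval (pt φ x)).mapMatrix (wM K d w) := by
  have h1 : φ (FreeGroup.lift x w) =
      (w.toWord.map fun p => cond p.2 (φ (x p.1)) (φ (x p.1))⁻¹).prod := by
    conv_lhs => rw [← FreeGroup.mk_toWord (x := w)]
    rw [FreeGroup.lift_mk, map_list_prod, List.map_map]
    congr 1
    refine List.map_congr_left fun p _ => ?_
    rcases p with ⟨a, _ | _⟩ <;> simp
  rw [h1, wM, map_list_prod, List.map_map]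
  have h2 := map_list_prod (Units.coeHom (Matrix (Fin d) (Fin d) K))
    (w.toWord.map fun p => cond p.2 (φ (x p.1)) (φ (x p.1))⁻¹)
  rw [Units.coeHom_apply] at h2
  rw [h2, List.map_map]
  congr 1
  refine List.map_congr_left fun p _ => ?_
  ext i j
  simp [genM, pt, Function.comp]

/-- the equations of a word -/
def eqs (K : Type) [Field K] (d : ℕ) (w : FreeGroup α) :
    Set (MvPolynomial (α × Bool × Fin d × Fin d) K) :=
  {f | ∃ i j, f = wM K d w i j - (1 : Matrix (Fin d) (Fin d)
    (MvPolynomial (α × Bool × Fin d × Fin d) K)) i j}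

theorem one_iff {φ : P →* Matrix.GeneralLinearGroup (Fin d) K} (hφ : Function.Injective φ)
    (x : α → P) (w : FreeGroup α) : FreeGroup.lift x w = 1 ↔
      ∀ f ∈ eqs K d w, MvPolynomial.eval (pt φ x) f = 0 := by
  have h1 := wM_eval φ x w
  have hone : (MvPolynomial.eval (pt φ x)).mapMatrix (1 : Matrix (Fin d) (Fin d)
    (MvPolynomial (α × Bool × Fin d × Fin d) K)) = 1 := map_one _
  constructor
  · rintro h f ⟨i, j, rfl⟩
    rw [h, map_one, Units.val_one] at h1
    have h2 := congrFun (congrFun h1 i) j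
    have h3 := congrFun (congrFun hone i) j
    rw [RingHom.mapMatrix_apply, Matrix.map_apply] at h2 h3
    rw [map_sub, h3, ← h2, sub_self]
  · intro h
    refine hφ ?_
    rw [map_one]
    refine Units.ext ?_
    rw [Units.val_one, h1]
    ext i j
    have h2 := h _ ⟨i, j, rfl⟩
    have h3 := congrFun (congrFun hone i) j
    rw [RingHom.mapMatrix_apply, Matrix.map_apply] at h3
    rw [map_sub, h3, sub_eq_zero] at h2
    rw [RingHom.mapMatrix_apply, Matrix.map_apply, h2]

end

theorem sLinear : SLinear := by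
  classical
  intro P _ K _ d φ hφ α _ S
  let R := MvPolynomial (α × Bool × Fin d × Fin d) K
  let I : Set (FreeGroup α) → Ideal R := fun T => Ideal.span (⋃ w ∈ T, eqs K d w)
  obtain ⟨M, ⟨T, hT, hTS, rfl⟩, hmax⟩ :=
    set_has_maximal_iff_noetherian.2 (inferInstance : IsNoetherian R R)
      {J : Submodule R R | ∃ T : Set (FreeGroup α), T.Finite ∧ T ⊆ S ∧ J = I T}
      ⟨_, ∅, Set.finite_empty, Set.empty_subset _, rfl⟩
  refine ⟨T, hT, hTS, fun x hx w hw => ?_⟩
  rw [one_iff hφ]
  intro f hf
  have hle : I T ≤ I (insert w T) := Ideal.span_mono (Set.biUnion_subset_biUnion_left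
    (Set.subset_insert _ _))
  have heq : I T = I (insert w T) := by
    refine hle.antisymm ?_
    by_contra hnot
    exact hmax _ ⟨insert w T, hT.insert w, Set.insert_subset hw hTS, rfl⟩
      (lt_of_le_not_ge hle hnot)
  have hfI : f ∈ I T := by
    rw [heq]
    exact Ideal.subset_span (Set.mem_biUnion (Set.mem_insert _ _) hf)
  have hker : I T ≤ RingHom.ker (MvPolynomial.eval (pt φ x)) := by
    refine Ideal.span_le.2 fun g hg => ?_
    obtain ⟨v, hv, hg⟩ := Set.mem_iUnion₂.1 hg
    exact (one_iff hφ x v).1 (hx v hv) g hg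
  exact hker hfI

end Pool.Agent.T9h70.CZ
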